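import Mathlib

set_option autoImplicit false

/-! # Squares with few nonzero digits and roots with many nonzero digits

`P(x) = 1 + 2x - 2x² + 4x³ + 4x⁴` has a negative coefficient but
`P(x)² = 1 + 4x + 28x⁴ + 32x⁷ + 16x⁸` has not. With `x = b ^ k` the square has at most `11` nonzero
base `b` digits, while the borrow caused by the negative coefficient gives `k - 1` consecutive digits
`b - 1` in the base `b` expansion of `P(b ^ k)`. -/

namespace Pool.Agent.Results.MP_dd1d4c_nt.UnboundedDigits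

/-- The number of nonzero base `b` digits of `m`. -/
def N (b m : ℕ) : ℕ := (Nat.digits b m).countP (fun d => d ≠ 0)

lemma N_zero (b : ℕ) : N b 0 = 0 := by simp [N]

lemma N_digit {b d : ℕ} (hd : d < b) (h0 : d ≠ 0) : N b d = 1 := by
  unfold N
  rw [Nat.digits_of_lt b d h0 hd]
  simp [h0]

lemma N_add {b : ℕ} (hb : 1 < b) (k a c : ℕ) (ha : a < b ^ k) :
    N b (a + b ^ k * c) = N b a + N b c := by
  rcases Nat.eq_zero_or_pos c with rfl | hc
  · simp [N_zero]
  · have hl : (Nat.digits b a).length ≤ k := (Nat.digits_length_le_iff hb a).2 ha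
    have h := Nat.digits_append_zeroes_append_digits (b := b) (k := k - (Nat.digits b a).length)
      (m := c) (n := a) hb hc
    have h2 : (Nat.digits b a).length + (k - (Nat.digits b a).length) = k := by omega
    rw [h2] at h
    unfold N
    rw [← h]
    simp [List.countP_append, List.countP_replicate]

lemma N_pow_sub_one {b : ℕ} (hb : 1 < b) (j : ℕ) : N b (b ^ j - 1) = j := by
  induction j with
  | zero => simp [N_zero]
  | succ j ih =>
    have h1 : 0 < b ^ j := by positivity
    have h : b ^ (j + 1) - 1 = (b - 1) + b ^ 1 * (b ^ j - 1) := by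
      obtain ⟨t, ht⟩ : ∃ t, b ^ j = t + 1 := ⟨b ^ j - 1, by omega⟩
      rw [pow_succ, ht, pow_one, Nat.add_sub_cancel]
      have : (t + 1) * b = b * t + b := by ring
      omega
    rw [h, N_add hb 1 _ _ (by rw [pow_one]; omega), ih, N_digit (by omega) (by omega)]
    omega

/-- The root `P(x)`, written without subtraction of a nonzero number. -/
def root (x : ℕ) : ℕ := (1 + 2 * x) + x ^ 2 * ((x - 2) + x * (3 + 4 * x))

lemma root_sq (x : ℕ) (hx : 2 ≤ x) :
    root x ^ 2 = 1 + x * (4 + x ^ 3 * (28 + x ^ 3 * (32 + x * 16))) := by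
  unfold root
  obtain ⟨y, rfl⟩ := Nat.exists_eq_add_of_le hx
  have : 2 + y - 2 = y := by omega
  rw [this]
  ring

lemma N_root {b k : ℕ} (hb : 1 < b) (hk : 2 ≤ k) (h3 : 3 ≤ b ^ k) :
    k - 1 ≤ N b (root (b ^ k)) := by
  have h1 : (1 + 2 * b ^ k) < b ^ (2 * k) := by
    rw [mul_comm 2 k, pow_mul]
    nlinarith
  have h2 : b ^ k - 2 < b ^ k := by omega
  have e : root (b ^ k) = (1 + 2 * b ^ k) + b ^ (2 * k) * ((b ^ k - 2) + b ^ k * (3 + 4 * b ^ k)) := by
    unfold root
    rw [mul_comm 2 k, pow_mul]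
  rw [e, N_add hb _ _ _ h1, N_add hb _ _ _ h2]
  obtain ⟨j, rfl⟩ : ∃ j, k = j + 1 := ⟨k - 1, by omega⟩
  have h4 : 0 < b ^ j := by positivity
  have h5 : b ≤ b ^ (j + 1) := by
    calc b = b ^ 1 := (pow_one b).symm
      _ ≤ b ^ (j + 1) := Nat.pow_le_pow_right (by omega) (by omega)
  have e2 : b ^ (j + 1) - 2 = (b - 2) + b ^ 1 * (b ^ j - 1) := by
    obtain ⟨t, ht⟩ : ∃ t, b ^ j = t + 1 := ⟨b ^ j - 1, by omega⟩
    rw [pow_succ, ht, pow_one, Nat.add_sub_cancel]
    have : (t + 1) * b = b * t + b := by ring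
    omega
  have h6 : N b (b ^ (j + 1) - 2) = N b (b - 2) + j := by
    rw [e2, N_add hb 1 _ _ (by rw [pow_one]; omega), N_pow_sub_one hb]
  omega

lemma N_sq {b k : ℕ} (hb : 1 < b) (h : 33 ≤ b ^ k) :
    N b (root (b ^ k) ^ 2) = N b 1 + N b 4 + N b 28 + N b 32 + N b 16 := by
  rw [root_sq _ (by omega), N_add hb k _ _ (by omega)]
  have e : (b ^ k) ^ 3 = b ^ (k * 3) := (pow_mul b k 3).symm
  have h3 : 33 ≤ b ^ (k * 3) := by
    rw [← e]
    calc 33 ≤ b ^ k := h
      _ = (b ^ k) ^ 1 := (pow_one _).symm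
      _ ≤ (b ^ k) ^ 3 := Nat.pow_le_pow_right (by omega) (by norm_num)
  rw [e, N_add hb (k * 3) _ _ (by omega), N_add hb (k * 3) _ _ (by omega),
    N_add hb k _ _ (by omega)]
  omega

lemma small {b : ℕ} (hb : 2 ≤ b) : N b 1 + N b 4 + N b 28 + N b 32 + N b 16 ≤ 11 := by
  by_cases h : b ≤ 32
  · interval_cases b <;> decide +kernel
  · rw [N_digit (by omega) (by norm_num), N_digit (by omega) (by norm_num),
      N_digit (by omega) (by norm_num), N_digit (by omega) (by norm_num),
      N_digit (by omega) (by norm_num)]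
    norm_num

lemma big {b : ℕ} (hb : 33 ≤ b) : N b 1 + N b 4 + N b 28 + N b 32 + N b 16 = 5 := by
  rw [N_digit (by omega) (by norm_num), N_digit (by omega) (by norm_num),
      N_digit (by omega) (by norm_num), N_digit (by omega) (by norm_num),
      N_digit (by omega) (by norm_num)]

lemma two : N 2 1 + N 2 4 + N 2 28 + N 2 32 + N 2 16 = 7 := by decide +kernel

/-- For every base `b ≥ 2` there are integers `n` with arbitrarily many nonzero base `b` digits whose
squares have at most `11` nonzero base `b` digits; `11` can be replaced by `5` (exactly five nonzero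
digits) for all `b ≥ 33` and by `7` for `b = 2`. -/
theorem result (b : ℕ) (hb : 2 ≤ b) (l : ℕ) :
    ∃ n : ℕ, l < N b n ∧ N b (n ^ 2) ≤ 11 ∧ (33 ≤ b → N b (n ^ 2) = 5) ∧
      (b = 2 → N b (n ^ 2) = 7) := by
  have h : 33 ≤ b ^ (l + 6) := by
    calc 33 ≤ 2 ^ 6 := by norm_num
      _ ≤ b ^ 6 := Nat.pow_le_pow_left hb 6
      _ ≤ b ^ (l + 6) := Nat.pow_le_pow_right (by omega) (by omega)
  refine ⟨root (b ^ (l + 6)), ?_, ?_, ?_, ?_⟩
  · have := N_root (b := b) (k := l + 6) (by omega) (by omega) (by omega)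
    omega
  · rw [N_sq (by omega) h]
    exact small hb
  · intro h33
    rw [N_sq (by omega) h]
    exact big h33
  · rintro rfl
    rw [N_sq (by omega) h]
    exact two

end Pool.Agent.Results.MP_dd1d4c_nt.UnboundedDigits
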